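import Pool.Agent.H121.UE.Iface
import Pool.Agent.H295.Z987.Clos

/-! Proof of `S_topA'` (project UE of helper121). The proof is that of `Pool.Agent.H962.ME.topA` (helper962),
which does not use the sign of `e0`. -/

set_option autoImplicit false

open scoped BigOperators InnerProductSpace Topology ENNReal
open Filter MeasureTheory

namespace Pool.Agent.H722.UE

open Pool.Agent.Y662.TR (LL dv)
open Pool.Agent.TH369.MU (SpM)
open Pool.Agent.H295.Z987 (comp_null)

/-- if the numerical range reaches above `e0` then some site charges `(e0, ∞)` -/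
theorem topA' : Pool.Agent.H121.UE.S_topA' := by
  intro ι _ T hT e0 φ hφ
  by_contra hcon
  push Not at hcon
  choose M hM hM0 using hcon
  obtain ⟨m, hf, hint, hmom, hcfc, -, -⟩ :=
    Pool.Agent.H54R3.Spec508.exists_spectral T hT φ
  have hsp : SpM T φ m := ⟨hf, fun z hz => Pool.Agent.TH369.AN.spec_borel T hT φ m hcfc z hz⟩
  have hm0 : m (Set.Ioi e0) = 0 := by
    rw [MeasurableSet.measure_eq_iSup_isCompact measurableSet_Ioi]
    simp only [ENNReal.iSup_eq_zero]
    intro K hKs hK
    exact comp_null T hT M hM φ m hsp K hK fun x => measure_mono_null hKs (hM0 x)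
  have h1 := hmom 1
  have h0 := hmom 0
  simp only [pow_one, pow_zero, one_apply_eq_self, integral_const, smul_eq_mul, mul_one] at h1 h0
  rw [inner_self_eq_norm_sq_to_K] at h0
  have h2 : m.real Set.univ = ‖φ‖ ^ 2 := by
    apply Complex.ofReal_injective
    rw [h0]
    push_cast
    rfl
  have hae : ∀ᵐ x ∂m, x ≤ e0 := by
    have : m {x | ¬ x ≤ e0} = 0 := by
      refine measure_mono_null (fun x hx => ?_) hm0
      exact not_le.1 hx
    exact this
  have h3 : ∫ x, x ∂m ≤ ∫ _, e0 ∂m := by
    have hi := hint 1
    simp only [pow_one] at hi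
    exact integral_mono_ae hi (integrable_const _) hae
  rw [integral_const, smul_eq_mul, h2] at h3
  have h4 : (⟪φ, T φ⟫_ℂ).re = ∫ x, x ∂m := by
    rw [← h1, Complex.ofReal_re]
  rw [h4] at hφ
  linarith

end Pool.Agent.H722.UE
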